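import Mathlib
import Pool.Agent.Helper81K1.OJ.Asym

/-!
# The exponents of an odd perfect number and its `t`-th largest prime factor
-/

set_option autoImplicit false

namespace Pool.Agent.Helper81K1.OJ

open Finset Filter

/-- **Main theorem.** -/
theorem expo (t : ℕ) : ∃ M N₀ : ℕ, ∀ N ≥ N₀, Odd N → Nat.Perfect N → ∀ y : ℕ,
    (N.primeFactors.filter (fun p : ℕ => y < p)).card ≤ t →
    (N.primeFactors.filter (fun q : ℕ => q ≤ y ∧
      (y : ℝ) * (Real.log y) ^ M < (N.factorization q : ℝ))).card ≤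
      (N.primeFactors.filter (fun p : ℕ => y < p)).card := by
  classical
  obtain ⟨M', N1, hmany⟩ := many (t + 1)
  obtain ⟨C, κ, hC, hκ, hcore⟩ := core_all (t + 1)
  set J := t * (t + 1) + 1 with hJ
  obtain ⟨c, E, hc, hD⟩ := Dseq_le C κ J
  set K : ℝ := 6 * t + 7 with hK
  have hK0 : 0 < K := by positivity
  have ev := (ev_log_pow 1 M' (a := 1 / 12) (by norm_num)).and
    ((ev_log_pow (2 * (4 * (t + 1) * K * (c * K) ^ (E * 2)) ^ 2) ((E * 2 + 1) * 2 + 0)
      (a := 5 / 12) (by norm_num)).and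
    ((ev_log_pow 73 0 (a := 5 / 12) (by norm_num)).and
    ((Real.tendsto_log_atTop.eventually_ge_atTop (3 * (3 * (c * K)) ^ E)).and
    (eventually_ge_atTop (3 + (t : ℝ))))))
  obtain ⟨L0, hL0⟩ := eventually_atTop.1 ev
  refine ⟨E + 1, max N1 ⌈Real.exp L0⌉₊, fun N hN hodd hperf y hT => ?_⟩
  have H : OPN N := ⟨hodd, hperf⟩
  have hNpos : (0 : ℝ) < N := by
    have := H.ne_zero
    positivity
  have hL : L0 ≤ Real.log N := by
    rw [Real.le_log_iff_exp_le hNpos]
    exact (Nat.le_ceil _).trans (by exact_mod_cast (le_of_max_le_right hN))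
  obtain ⟨e1, e2, e3, e4, e5⟩ := hL0 _ hL
  have hmany' := hmany N (le_of_max_le_left hN) hodd hperf
  obtain ⟨L, hLdef⟩ : ∃ L : ℝ, L = Real.log N := ⟨_, rfl⟩
  rw [← hLdef] at e1 e2 e3 e4 e5 hmany' hL
  have ht0 : (0 : ℝ) ≤ t := Nat.cast_nonneg t
  have hL3 : 3 ≤ L := by linarith
  have hLpos : 0 < L := by linarith
  have hlogL : 1 ≤ Real.log L := by
    rw [Real.le_log_iff_exp_le (by linarith)]
    have := Real.exp_one_lt_d9
    linarith
  set l := Real.log L with hl
  -- `y` is large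
  have hyge : L ^ (5 / 12 : ℝ) ≤ y := by
    have h1 : √L / l ^ M' < (y : ℝ) ∨ √L / l ^ M' = (y : ℝ) := by
      by_contra hcon
      rw [not_or, not_lt] at hcon
      obtain ⟨h2, h3⟩ := hcon
      have h4 : (y : ℝ) < √L / l ^ M' := lt_of_le_of_ne h2 (Ne.symm h3)
      have h5 : (N.primeFactors.filter (fun p : ℕ => √L / l ^ M' < (p : ℝ))).card ≤
          (N.primeFactors.filter (fun p : ℕ => y < p)).card := by
        apply Finset.card_le_card
        intro p hp
        rw [Finset.mem_filter] at hp ⊢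
        exact ⟨hp.1, by exact_mod_cast h4.trans hp.2⟩
      omega
    have h2 : √L / l ^ M' ≤ (y : ℝ) := h1.elim (fun h => h.le) (fun h => h.le)
    refine le_trans ?_ h2
    have hlM : 0 < l ^ M' := by positivity
    rw [le_div_iff₀ hlM, Real.sqrt_eq_rpow]
    rw [one_mul] at e1
    calc L ^ (5 / 12 : ℝ) * l ^ M' ≤ L ^ (5 / 12 : ℝ) * L ^ (1 / 12 : ℝ) :=
          mul_le_mul_of_nonneg_left e1.le (by positivity)
      _ = L ^ (1 / 2 : ℝ) := by
          rw [← Real.rpow_add hLpos]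
          norm_num
  have h73 : 73 ≤ y := by
    rw [pow_zero, mul_one] at e3
    exact_mod_cast e3.le.trans hyge
  have hypos : (0 : ℝ) < y := by
    have : 0 < y := by omega
    exact_mod_cast this
  have hlogy : l / 3 ≤ Real.log y := by
    have h1 := Real.log_le_log (by positivity) hyge
    rw [Real.log_rpow hLpos] at h1
    linarith
  have hfac : ∀ q, (N.factorization q : ℝ) ≤ L := fun q => by rw [hLdef]; exact H.fact_lt_log q
  have hlogy1 : 1 ≤ Real.log y := by
    have h3 : (3 : ℝ) ≤ y := by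
      have : (73 : ℝ) ≤ y := by exact_mod_cast h73
      linarith
    rw [Real.le_log_iff_exp_le hypos]
    have := Real.exp_one_lt_d9
    linarith
  rcases le_or_gt L y with hyL | hyL
  · -- trivial case
    have h0 : N.primeFactors.filter (fun q : ℕ => q ≤ y ∧
      (y : ℝ) * (Real.log y) ^ (E + 1) < (N.factorization q : ℝ)) = ∅ := by
      rw [Finset.filter_eq_empty_iff]
      rintro q _ ⟨_, h2⟩
      have h3 := hfac q
      have h4 : (y : ℝ) ≤ y * (Real.log y) ^ (E + 1) :=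
        le_mul_of_one_le_right hypos.le (one_le_pow₀ hlogy1)
      linarith
    rw [h0, Finset.card_empty]
    exact Nat.zero_le _
  set g := gg t L with hg
  have hYB : y ≤ ⌈L⌉₊ := by
    have h1 : (y : ℝ) ≤ (⌈L⌉₊ : ℝ) := hyL.le.trans (Nat.le_ceil _)
    exact_mod_cast h1
  have hgL := gg_le t hL3 (by linarith)
  rw [← hg, ← hK] at hgL
  have hg1 : 1 ≤ g := one_le_gg t L
  have h2g := le_two_pow_gg t L
  rw [← hg] at h2g
  have hbase : (t + 1) * (⌈L⌉₊ + 2) ≤ ((t + 1) * (⌈L⌉₊ + 2)) ^ (t + 1) := Nat.le_self_pow (by omega) _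
  have hbase2 : ⌈L⌉₊ + 2 ≤ (t + 1) * (⌈L⌉₊ + 2) := Nat.le_mul_of_pos_left _ (by omega)
  have hDle : (Dseq C κ g J : ℝ) ≤ (c * K) ^ E * l ^ E := by
    have h1 : (Dseq C κ g J : ℝ) ≤ ((c * g : ℕ) : ℝ) ^ E := by exact_mod_cast hD g hg1
    refine h1.trans ?_
    rw [← mul_pow]
    apply pow_le_pow_left₀ (by positivity)
    push_cast
    calc (c : ℝ) * g ≤ c * (K * Real.log L) := mul_le_mul_of_nonneg_left hgL (by positivity)
      _ = _ := by ring
  have hfew := H.few (t := t) hC hκ hcore (Y := y) (g := g) (B := ⌈L⌉₊) h73 (by omega) hg1 hT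
    (by
      intro q _
      have h2 : N.factorization q ≤ ⌈L⌉₊ := by exact_mod_cast (hfac q).trans (Nat.le_ceil _)
      omega)
    (by
      intro r
      exact_mod_cast (hfac r).trans (Nat.le_ceil _))
    (by
      refine le_trans ?_ h2g
      calc ((t + 1) * (⌈L⌉₊ + 1)) ^ t ≤ ((t + 1) * (⌈L⌉₊ + 2)) ^ t :=
            Nat.pow_le_pow_left (Nat.mul_le_mul_left _ (by omega)) _
        _ ≤ _ := Nat.pow_le_pow_right (by positivity) (by omega))
    (cond_aux t g _ y E 0 (by linarith) hgL hDle e2 (by rw [pow_zero, div_one]; exact hyge))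
  refine le_trans (Finset.card_le_card ?_) hfew
  intro q hq
  rw [Finset.mem_filter] at hq ⊢
  refine ⟨hq.1, hq.2.1, ?_⟩
  have h1 : (Dseq C κ g J : ℝ) ≤ (Real.log y) ^ (E + 1) := by
    have h2 : (3 * (c * K)) ^ E ≤ Real.log y := by linarith
    have h3 : l ^ E ≤ (3 * Real.log y) ^ E := pow_le_pow_left₀ (by linarith) (by linarith) _
    calc (Dseq C κ g J : ℝ) ≤ (c * K) ^ E * l ^ E := hDle
      _ ≤ (c * K) ^ E * (3 * Real.log y) ^ E := mul_le_mul_of_nonneg_left h3 (by positivity)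
      _ = (3 * (c * K)) ^ E * (Real.log y) ^ E := by rw [← mul_pow, ← mul_pow]; congr 1; ring
      _ ≤ Real.log y * (Real.log y) ^ E := mul_le_mul_of_nonneg_right h2 (by positivity)
      _ = _ := by rw [pow_succ]; ring
  have h4 : ((y * Dseq C κ g J : ℕ) : ℝ) < ((N.factorization q + 1 : ℕ) : ℝ) := by
    push_cast
    have h5 := mul_le_mul_of_nonneg_left h1 hypos.le
    linarith [hq.2.2]
  exact_mod_cast h4

end Pool.Agent.Helper81K1.OJ
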